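import Mathlib
import Pool.Agent.H14.ValDelta2

set_option autoImplicit false

namespace Pool.Agent.Results.MP_c0a4b6_co.SkewPlusRankOne

open Matrix Pool.Agent.H14.ValDelta

/-- Skew-Hermitian plus rank-one Hermitian: the valuations of the principal minors form a
valuated Delta-matroid, over every valued field with a valuation-preserving involution. -/
theorem result (K : Type) [Field K] [StarRing K] (v : AddValuation K (WithTop ℝ))
    (hv : ∀ a, v (star a) = v a) (n : ℕ) (B C : Matrix (Fin n) (Fin n) K)
    (hB : Bᴴ = -B) (hC : Cᴴ = C) (hr : C.rank = 1) :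
    IsValDelta (fun S => v (pminor (B + C) S)) := by
  obtain ⟨a, b, hab⟩ := rank_one_eq C hr
  refine valDelta v hv (B + C) (-1) (Or.inr rfl) ((2 : K) • a) b ?_
  rw [Matrix.conjTranspose_add, hB, hC, Matrix.smul_vecMulVec, ← hab]
  module

end Pool.Agent.Results.MP_c0a4b6_co.SkewPlusRankOne
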